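import Mathlib

/-!
Positive answer to Q1.  Solutions come from the Pell conic `T ^ 2 - 2 * S ^ 2 = 7`, `T = 4 * t + 1`.
-/

set_option autoImplicit false

namespace Pool.Agent.Results.MP_b003da_nt.LargeSolutions

/-- The equation `y² + x² y + z² x + 1 = 0` has integer solutions with all coordinates
arbitrarily large in absolute value. -/
theorem result :
    ∀ k : ℕ, ∃ x y z : ℤ, y ^ 2 + x ^ 2 * y + z ^ 2 * x + 1 = 0 ∧
      (k : ℤ) ≤ |x| ∧ (k : ℤ) ≤ |y| ∧ (k : ℤ) ≤ |z| := by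
  have pell : ∀ k : ℕ, ∃ t s : ℤ, (k : ℤ) + 1 ≤ t ∧ 0 ≤ s ∧
      (4 * t + 1) ^ 2 - 2 * (2 * s + 1) ^ 2 = 7 := by
    intro k
    induction k with
    | zero => exact ⟨1, 1, by norm_num, by norm_num, by norm_num⟩
    | succ k ih =>
      obtain ⟨t, s, h1, h2, h3⟩ := ih
      have hk : (0 : ℤ) ≤ k := Int.natCast_nonneg k
      refine ⟨17 * t + 12 * s + 10, 24 * t + 17 * s + 14, by push_cast; omega, by omega, ?_⟩
      linear_combination h3
  intro k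
  obtain ⟨t, s, h1, h2, h3⟩ := pell k
  have hk : (0 : ℤ) ≤ k := Int.natCast_nonneg k
  have ht : 1 ≤ t := by omega
  have ht2 : t ≤ t ^ 2 := by nlinarith
  have ht3 : t ^ 2 ≤ t ^ 3 := by nlinarith
  have ht4 : t ^ 3 ≤ t ^ 4 := by nlinarith
  have hb : 0 ≤ 16 * t ^ 3 + 8 * t ^ 2 + 2 * t - 1 := by nlinarith
  refine ⟨8 * t ^ 2 + 4 * t + 1,
    -(32 * t ^ 4 + 40 * t ^ 3 + 20 * t ^ 2 + 5 * t + s * (16 * t ^ 3 + 8 * t ^ 2 + 2 * t - 1)),
    8 * t ^ 3 + 8 * t ^ 2 + 5 * t, ?_, ?_, ?_, ?_⟩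
  · have h4 : 2 * t ^ 2 + t - s ^ 2 - s - 1 = 0 := by linarith
    linear_combination (-(16 * t ^ 3 + 8 * t ^ 2 + 2 * t - 1) ^ 2) * h4
  · exact le_trans (by nlinarith) (le_abs_self _)
  · rw [abs_neg]
    exact le_trans (by nlinarith [mul_nonneg h2 hb]) (le_abs_self _)
  · exact le_trans (by nlinarith) (le_abs_self _)

end Pool.Agent.Results.MP_b003da_nt.LargeSolutions
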